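import Mathlib
import Pool.Agent.Helper411.BipMain

/-!
# Every bipartite graph is scheme-contractible

In particular every bipartite theta graph is scheme-contractible.
-/

set_option autoImplicit false

namespace Pool.Agent.Results.MP_a02419_co.BipartiteGraphs

open Pool.Agent.Helper411

/-- An `H`-scheme in `G`, where `V(H)` is regarded as a subset of `V(G)` through the embedding
`ι`: a family of paths `P u v` from `u` to `v`, one for each edge `uv` of `H` (read backwards for
`vu`), meeting `V(H)` only in `u` and `v`, such that any nonempty set of edges whose paths have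
a common vertex has a common end. -/
def HasScheme {V W : Type} (H : SimpleGraph V) (G : SimpleGraph W) (ι : V ↪ W) : Prop :=
  ∃ P : (u v : V) → H.Adj u v → G.Walk (ι u) (ι v),
    (∀ u v (h : H.Adj u v), P v u h.symm = (P u v h).reverse) ∧
    (∀ u v (h : H.Adj u v), (P u v h).IsPath ∧
      ∀ x : V, ι x ∈ (P u v h).support ↔ x = u ∨ x = v) ∧
    ∀ F : Set (Sym2 V), F ⊆ H.edgeSet → F.Nonempty →
      (∃ y : W, ∀ u v (h : H.Adj u v), s(u, v) ∈ F → y ∈ (P u v h).support) →
      ∃ x : V, ∀ e ∈ F, x ∈ e

/-- `G` has a rooted `H`-minor: pairwise vertex-disjoint connected subgraphs `C v` of `G`,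
`v ∈ V(H)`, with `v ∈ V(C v)`, such that for each edge `uv` of `H` some edge of `G` joins `C u`
and `C v`. -/
def HasRootedMinor {V W : Type} (H : SimpleGraph V) (G : SimpleGraph W) (ι : V ↪ W) : Prop :=
  ∃ C : V → G.Subgraph, (∀ v, (C v).Connected) ∧
    (∀ u v, u ≠ v → Disjoint (C u).verts (C v).verts) ∧
    (∀ v, ι v ∈ (C v).verts) ∧
    ∀ u v, H.Adj u v → ∃ x ∈ (C u).verts, ∃ y ∈ (C v).verts, G.Adj x y

/-- `H` is scheme-contractible: each finite graph that contains an `H`-scheme has a rooted
`H`-minor. -/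
def SchemeContractible {V : Type} (H : SimpleGraph V) : Prop :=
  ∀ (W : Type) [Finite W] (G : SimpleGraph W) (ι : V ↪ W),
    HasScheme H G ι → HasRootedMinor H G ι

/-- A rooted minor given by vertex sets. -/
lemma of_sets {V W : Type} {H : SimpleGraph V} {G : SimpleGraph W} {ι : V ↪ W}
    (B : V → Set W) (h1 : ∀ v, (G.induce (B v)).Connected)
    (h2 : ∀ u v, u ≠ v → Disjoint (B u) (B v)) (h3 : ∀ v, ι v ∈ B v)
    (h4 : ∀ u v, H.Adj u v → ∃ x ∈ B u, ∃ y ∈ B v, G.Adj x y) : HasRootedMinor H G ι := by
  refine ⟨fun v => (⊤ : G.Subgraph).induce (B v), ?_, ?_, ?_, ?_⟩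
  · intro v
    rw [SimpleGraph.Subgraph.connected_iff', ← SimpleGraph.induce_eq_coe_induce_top]
    exact h1 v
  · intro u v huv
    exact h2 u v huv
  · intro v
    exact h3 v
  · intro u v huv
    exact h4 u v huv

/-- Reachability in `cell` from a walk all of whose vertices have one of the two labels. -/
lemma reach_of_walk {W I J : Type} (G : SimpleGraph W) (ℓ : W → I ⊕ J) (i : I) (j : J)
    {x y : W} (p : G.Walk x y) (hp : ∀ z ∈ p.support, ℓ z = .inl i ∨ ℓ z = .inr j) :
    (cell G ℓ i j).Reachable x y := by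
  induction p with
  | nil => exact SimpleGraph.Reachable.refl _
  | @cons a b c h q ih =>
    have h1 : (cell G ℓ i j).Adj a b := by
      refine ⟨h, hp a (by simp), hp b ?_⟩
      simp
    refine h1.reachable.trans (ih ?_)
    intro z hz
    exact hp z (by simp [hz])

/-- The bipartite case with both parts nonempty, in terms of vertex labels. -/
lemma main_labels {V W : Type} [Finite V] [Finite W] (H : SimpleGraph V) (G : SimpleGraph W)
    (ι : V ↪ W) (c : V → Bool) (hc : ∀ u v, H.Adj u v → c u ≠ c v)
    (u0 w0 : V) (hu0 : c u0 = true) (hw0 : c w0 = false)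
    (m : W → V) (hm : ∀ v, m (ι v) = v)
    (P : (u v : V) → H.Adj u v → G.Walk (ι u) (ι v))
    (hP : ∀ u v (h : H.Adj u v), ∀ z ∈ (P u v h).support, m z = u ∨ m z = v) :
    HasRootedMinor H G ι := by
  classical
  have : Fintype V := Fintype.ofFinite V
  have : Fintype W := Fintype.ofFinite W
  let I : Type := {v : V // c v = true}
  let J : Type := {v : V // c v = false}
  have : Nonempty I := ⟨⟨u0, hu0⟩⟩
  have : Nonempty J := ⟨⟨w0, hw0⟩⟩
  let lab : V → I ⊕ J := fun v =>
    if h : c v = true then .inl ⟨v, h⟩ else .inr ⟨v, by simpa using h⟩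
  have hlabI : ∀ i : I, lab i.1 = .inl i := by
    rintro ⟨v, hv⟩
    simp [lab, hv]
  have hlabJ : ∀ j : J, lab j.1 = .inr j := by
    rintro ⟨v, hv⟩
    simp [lab, hv]
  let und : I ⊕ J → V := Sum.elim (fun i => i.1) (fun j => j.1)
  have hundlab : ∀ v, und (lab v) = v := by
    intro v
    by_cases h : c v = true
    · simp [lab, und, h]
    · simp [lab, und, h]
  let ℓ : W → I ⊕ J := fun z => lab (m z)
  -- the extra edges
  let X : W → W → Prop := fun x y => ∃ a b : V, c a ≠ c b ∧ ¬ H.Adj a b ∧ x = ι a ∧ y = ι b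
  let G' : SimpleGraph W :=
    { Adj := fun x y => G.Adj x y ∨ X x y
      symm := ⟨by
        rintro x y (h | ⟨a, b, h1, h2, h3, h4⟩)
        · exact Or.inl h.symm
        · exact Or.inr ⟨b, a, h1.symm, fun h => h2 h.symm, h4, h3⟩⟩
      loopless := ⟨by
        rintro x (h | ⟨a, b, h1, h2, h3, h4⟩)
        · exact G.irrefl h
        · rw [h3] at h4
          exact h1 (by rw [ι.injective h4])⟩ }
  have hGG : G ≤ G' := fun x y h => Or.inl h
  have hmodel := scheme_main G' ℓ (fun i : I => ι i.1) (fun j : J => ι j.1)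
    (fun i => by simp only [ℓ, hm, hlabI]) (fun j => by simp only [ℓ, hm, hlabJ]) (by
      intro i j
      by_cases hij : H.Adj i.1 j.1
      · apply reach_of_walk G' ℓ i j ((P i.1 j.1 hij).mapLe hGG)
        intro z hz
        rw [SimpleGraph.Walk.support_mapLe_eq_support] at hz
        rcases hP i.1 j.1 hij z hz with h | h
        · left
          simp only [ℓ, h, hlabI]
        · right
          simp only [ℓ, h, hlabJ]
      · apply SimpleGraph.Adj.reachable
        refine ⟨Or.inr ⟨i.1, j.1, ?_, hij, rfl, rfl⟩, Or.inl ?_, Or.inr ?_⟩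
        · rw [i.2, j.2]; simp
        · simp only [ℓ, hm, hlabI]
        · simp only [ℓ, hm, hlabJ])
  obtain ⟨U, hU1, hU2, hU3, hU4, hU5⟩ := hmodel
  have hroot : ∀ v, ι v ∈ U (lab v) := by
    intro v
    by_cases h : c v = true
    · have h1 := hU3 ⟨v, h⟩
      rwa [← hlabI] at h1
    · have h' : c v = false := by simpa using h
      have h1 := hU4 ⟨v, h'⟩
      rwa [← hlabJ] at h1
  have huniq : ∀ v k, ι v ∈ U k → k = lab v := by
    intro v k hk
    by_contra hne
    exact Set.disjoint_left.1 (hU2 k (lab v) hne) hk (hroot v)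
  have hlabinj : ∀ a b, lab a = lab b → a = b := by
    intro a b h
    rw [← hundlab a, ← hundlab b, h]
  refine of_sets (fun v => U (lab v)) ?_ ?_ hroot ?_
  · intro v
    have h1 := hU1 (lab v)
    have h2 : G'.induce (U (lab v)) = G.induce (U (lab v)) := by
      ext x y
      constructor
      · rintro (h | ⟨a, b, h1, h2, h3, h4⟩)
        · exact h
        · exfalso
          have hx : ι a ∈ U (lab v) := by rw [← h3]; exact x.2
          have hy : ι b ∈ U (lab v) := by rw [← h4]; exact y.2
          have e1 := huniq a _ hx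
          have e2 := huniq b _ hy
          exact h1 (by rw [hlabinj a b (e1.symm.trans e2)])
      · intro h
        exact Or.inl h
    rwa [h2] at h1
  · intro u v huv
    exact hU2 _ _ (fun h => huv (hlabinj u v h))
  · -- the cross edges
    have key : ∀ (i : I) (j : J), H.Adj i.1 j.1 →
        ∃ x ∈ U (.inl i), ∃ y ∈ U (.inr j), G.Adj x y := by
      intro i j hij
      obtain ⟨x, hx, y, hy, hxy⟩ := hU5 i j
      rcases hxy with h | ⟨a, b, h1, h2, h3, h4⟩
      · exact ⟨x, hx, y, hy, h⟩
      · exfalso
        rw [h3] at hx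
        rw [h4] at hy
        have e1 := huniq a _ hx
        have e2 := huniq b _ hy
        rw [← hlabI i] at e1
        rw [← hlabJ j] at e2
        rw [← hlabinj _ _ e1, ← hlabinj _ _ e2] at h2
        exact h2 hij
    intro u v huv
    have hne := hc u v huv
    by_cases hcu : c u = true
    · have hcv : c v = false := by
        cases hv : c v
        · rfl
        · rw [hcu, hv] at hne
          exact absurd rfl hne
      have := key ⟨u, hcu⟩ ⟨v, hcv⟩ huv
      rw [← hlabI, ← hlabJ] at this
      exact this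
    · have hcu' : c u = false := by simpa using hcu
      have hcv : c v = true := by
        cases hv : c v
        · rw [hcu', hv] at hne
          exact absurd rfl hne
        · rfl
      obtain ⟨x, hx, y, hy, hxy⟩ := key ⟨v, hcv⟩ ⟨u, hcu'⟩ huv.symm
      rw [← hlabI] at hx
      rw [← hlabJ] at hy
      exact ⟨y, hy, x, hx, hxy.symm⟩

/-- **Every bipartite graph is scheme-contractible**; in particular so is every bipartite theta
graph. -/
theorem result : ∀ (V : Type) [Finite V] (H : SimpleGraph V), H.Colorable 2 →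
    SchemeContractible H := by
  classical
  intro V _ H hH W _ G ι hS
  obtain ⟨P, hsymm, hP, hF⟩ := hS
  obtain ⟨C⟩ := hH
  let c : V → Bool := fun v => decide (C v = 0)
  have hc : ∀ u v, H.Adj u v → c u ≠ c v := by
    intro u v huv h
    have h1 := C.valid huv
    simp only [c, decide_eq_decide] at h
    have h2 : ∀ a b : Fin 2, (a = 0 ↔ b = 0) → a = b := by decide
    exact h1 (h2 _ _ h)
  -- the labels
  have hex : ∀ z : W, ∀ v0 : V, ∃ v : V, (∀ x, z = ι x → v = x) ∧
      ∀ u w (h : H.Adj u w), z ∈ (P u w h).support → v = u ∨ v = w := by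
    intro z v0
    by_cases hz : ∃ x, z = ι x
    · obtain ⟨x, rfl⟩ := hz
      refine ⟨x, fun y hy => ι.injective hy, ?_⟩
      intro u w h hx
      exact ((hP u w h).2 x).1 hx
    · by_cases hz' : ∃ u w, ∃ h : H.Adj u w, z ∈ (P u w h).support
      · obtain ⟨v, hv⟩ := hF {e | ∃ u w, ∃ h : H.Adj u w, e = s(u, w) ∧ z ∈ (P u w h).support}
          (by
            rintro e ⟨u, w, h, rfl, _⟩
            exact h)
          (by
            obtain ⟨u, w, h, hzz⟩ := hz'
            exact ⟨s(u, w), u, w, h, rfl, hzz⟩)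
          (by
            refine ⟨z, ?_⟩
            rintro u w h ⟨u', w', h', he, hzz⟩
            rw [Sym2.eq_iff] at he
            rcases he with ⟨rfl, rfl⟩ | ⟨rfl, rfl⟩
            · exact hzz
            · have h2 := hsymm w u h'
              rw [h2, SimpleGraph.Walk.support_reverse]
              simpa using hzz)
        refine ⟨v, fun x hx => absurd ⟨x, hx⟩ hz, ?_⟩
        intro u w h hzz
        have := hv s(u, w) ⟨u, w, h, rfl, hzz⟩
        simpa using this
      · refine ⟨v0, fun x hx => absurd ⟨x, hx⟩ hz, ?_⟩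
        intro u w h hzz
        exact absurd ⟨u, w, h, hzz⟩ hz'
  by_cases hboth : (∃ u, c u = true) ∧ (∃ w, c w = false)
  · obtain ⟨⟨u0, hu0⟩, ⟨w0, hw0⟩⟩ := hboth
    choose m hm1 hm2 using fun z => hex z u0
    exact main_labels H G ι c hc u0 w0 hu0 hw0 m (fun v => hm1 _ v rfl) P
      (fun u v h z hz => hm2 z u v h hz)
  · -- no edges
    have hno : ∀ u v, ¬ H.Adj u v := by
      intro u v huv
      apply hboth
      have hne := hc u v huv
      cases hu : c u <;> cases hv : c v
      · rw [hu, hv] at hne
        exact absurd rfl hne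
      · exact ⟨⟨v, hv⟩, ⟨u, hu⟩⟩
      · exact ⟨⟨u, hu⟩, ⟨v, hv⟩⟩
      · rw [hu, hv] at hne
        exact absurd rfl hne
    refine of_sets (fun v => {ι v}) ?_ ?_ (fun v => rfl) ?_
    · intro v
      rw [SimpleGraph.connected_iff_exists_forall_reachable]
      refine ⟨⟨ι v, rfl⟩, ?_⟩
      rintro ⟨x, rfl⟩
      exact SimpleGraph.Reachable.refl _
    · intro u v huv
      rw [Set.disjoint_singleton]
      exact fun h => huv (ι.injective h)
    · intro u v huv
      exact absurd huv (hno u v)

end Pool.Agent.Results.MP_a02419_co.BipartiteGraphs
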